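import Pool.Agent.Helper38.EC.Goals

set_option autoImplicit false

open MeasureTheory Filter Topology Set

namespace Pool.Agent.Helper99.EC.I_IBD

open EC237 EC237.PI Complex

/-- the square root -/
noncomputable def s (z : ℂ) : ℂ := Complex.exp (Complex.log z / 2)

theorem s_der {z : ℂ} (hz : z ∈ slitPlane) : HasDerivAt s (s z / (2 * z)) z := by
  have hz0 : z ≠ 0 := slitPlane_ne_zero hz
  have h : HasDerivAt s (Complex.exp (Complex.log z / 2) * (z⁻¹ / 2)) z :=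
    ((Complex.hasDerivAt_log hz).div_const 2).cexp
  refine h.congr_deriv ?_
  unfold s
  field_simp

theorem s_norm {z : ℂ} (hz : z ≠ 0) : ‖s z‖ = Real.sqrt ‖z‖ := by
  unfold s
  rw [Complex.norm_exp]
  have h1 : (Complex.log z / 2).re = Real.log ‖z‖ / 2 := by
    rw [show (Complex.log z / 2) = ((1/2:ℝ):ℂ) * Complex.log z by push_cast; ring]
    rw [Complex.re_ofReal_mul, Complex.log_re]
    ring
  have hp : 0 < ‖z‖ := norm_pos_iff.2 hz
  rw [h1, Real.sqrt_eq_rpow, Real.rpow_def_of_pos hp]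
  congr 1
  ring

noncomputable def f1 (z : ℂ) : ℂ := s z * Ic z

noncomputable def f2 (z : ℂ) : ℂ := s z * (deriv Ic z + Ic z / (2 * z))

theorem dIc (h : G_SERA) {z : ℂ} (hz : z ≠ 0) :
    HasDerivAt (deriv Ic) (Ic z - deriv Ic z / z) z := by
  have h1 := h.2.2.1 z
  have h2 : HasDerivAt (fun w : ℂ => (w * deriv Ic w) / w)
      (((z * Ic z) * z - (z * deriv Ic z) * 1) / z ^ 2) z := h1.div (hasDerivAt_id z) hz
  have h3 : (fun w : ℂ => (w * deriv Ic w) / w) =ᶠ[𝓝 z] deriv Ic := by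
    filter_upwards [isOpen_ne.mem_nhds hz] with w hw
    have hw' : w ≠ 0 := hw
    field_simp
  refine (h2.congr_of_eventuallyEq h3.symm).congr_deriv ?_
  field_simp

theorem f1_der (h : G_SERA) {z : ℂ} (hz : z ∈ slitPlane) : HasDerivAt f1 (f2 z) z := by
  have hz0 : z ≠ 0 := slitPlane_ne_zero hz
  have h1 : HasDerivAt f1 (s z / (2 * z) * Ic z + s z * deriv Ic z) z :=
    (s_der hz).mul (h.1 z).hasDerivAt
  refine h1.congr_deriv ?_
  unfold f2
  field_simp
  ring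

theorem f2_der (h : G_SERA) {z : ℂ} (hz : z ∈ slitPlane) :
    HasDerivAt f2 ((1 - 1 / (4 * z ^ 2)) * f1 z) z := by
  have hz0 : z ≠ 0 := slitPlane_ne_zero hz
  have h3 : HasDerivAt (fun w : ℂ => 2 * w) (2 * 1) z := (hasDerivAt_id z).const_mul 2
  have h2 : HasDerivAt (fun w : ℂ => Ic w / (2 * w))
      ((deriv Ic z * (2 * z) - Ic z * (2 * 1)) / (2 * z) ^ 2) z :=
    (h.1 z).hasDerivAt.div h3 (by simpa using hz0)
  have h4 : HasDerivAt (fun w : ℂ => deriv Ic w + Ic w / (2 * w))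
      ((Ic z - deriv Ic z / z) + (deriv Ic z * (2 * z) - Ic z * (2 * 1)) / (2 * z) ^ 2) z :=
    (dIc h hz0).add h2
  have h1 : HasDerivAt f2 (s z / (2 * z) * (deriv Ic z + Ic z / (2 * z)) + s z *
      ((Ic z - deriv Ic z / z) + (deriv Ic z * (2 * z) - Ic z * (2 * 1)) / (2 * z) ^ 2)) z :=
    (s_der hz).mul h4
  refine h1.congr_deriv ?_
  unfold f1
  field_simp
  ring

/-- the path -/
noncomputable def zz (x η : ℝ) : ℂ := (x : ℂ) - I * η

theorem zz_der (x η : ℝ) : HasDerivAt (zz x) (-I) η := by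
  have h0 : HasDerivAt (fun η : ℝ => ((η : ℝ) : ℂ)) 1 η := Complex.ofRealCLM.hasDerivAt
  have h : HasDerivAt (zz x) (-(I * 1)) η := (h0.const_mul I).const_sub (x : ℂ)
  refine h.congr_deriv ?_
  simp

theorem zz_re (x η : ℝ) : (zz x η).re = x := by simp [zz]

theorem zz_im (x η : ℝ) : (zz x η).im = -η := by simp [zz]

theorem zz_slit {x η : ℝ} (hη : 0 < η) : zz x η ∈ slitPlane := by
  right
  rw [zz_im]
  exact (neg_lt_zero.2 hη).ne

theorem zz_norm {x η : ℝ} (hη : 0 ≤ η) : η ≤ ‖zz x η‖ := by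
  have := Complex.abs_im_le_norm (zz x η)
  rw [zz_im, abs_neg, abs_of_nonneg hη] at this
  exact this

theorem zz_norm_le {x η : ℝ} (hx : 0 ≤ x) (hη : 0 ≤ η) : ‖zz x η‖ ≤ x + η := by
  have := Complex.norm_le_abs_re_add_abs_im (zz x η)
  rw [zz_re, zz_im, abs_neg, abs_of_nonneg hη, abs_of_nonneg hx] at this
  exact this

/-- the energy -/
noncomputable def EE (x η : ℝ) : ℝ := normSq (f1 (zz x η)) + normSq (f2 (zz x η))

theorem nsq_der {g : ℝ → ℂ} {g' : ℂ} {t : ℝ} (h : HasDerivAt g g' t) :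
    HasDerivAt (fun t => normSq (g t)) (2 * ((starRingEnd ℂ) (g t) * g').re) t := by
  have h1 : HasDerivAt (fun t => (g t).re) g'.re t := by
    exact (Complex.reCLM.hasFDerivAt.comp_hasDerivAt t h)
  have h2 : HasDerivAt (fun t => (g t).im) g'.im t := by
    exact (Complex.imCLM.hasFDerivAt.comp_hasDerivAt t h)
  have h3 : HasDerivAt (fun t => (g t).re * (g t).re + (g t).im * (g t).im)
      ((g'.re * (g t).re + (g t).re * g'.re) + (g'.im * (g t).im + (g t).im * g'.im)) t :=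
    (h1.mul h1).add (h2.mul h2)
  refine h3.congr_deriv ?_
  simp
  ring

theorem EE_der (h : G_SERA) {x η : ℝ} (hη : 0 < η) :
    HasDerivAt (EE x) (2 * ((starRingEnd ℂ) (f2 (zz x η)) *
      (I * (1 / (4 * (zz x η) ^ 2)) * f1 (zz x η))).re) η := by
  have h1 : HasDerivAt (fun η => f1 (zz x η)) (f2 (zz x η) * -I) η :=
    HasDerivAt.comp (h₂ := f1) η (f1_der h (zz_slit hη)) (zz_der x η)
  have h2 : HasDerivAt (fun η => f2 (zz x η))
      ((1 - 1 / (4 * (zz x η) ^ 2)) * f1 (zz x η) * -I) η :=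
    HasDerivAt.comp (h₂ := f2) η (f2_der h (zz_slit hη)) (zz_der x η)
  have h3 := (nsq_der h1).add (nsq_der h2)
  refine HasDerivAt.congr_deriv h3 ?_
  generalize f1 (zz x η) = a
  generalize f2 (zz x η) = b
  generalize 1 / (4 * (zz x η) ^ 2) = c
  simp only [Complex.mul_re, Complex.mul_im, Complex.conj_re, Complex.conj_im, Complex.neg_re,
    Complex.neg_im, Complex.I_re, Complex.I_im, Complex.sub_re, Complex.sub_im, Complex.one_re,
    Complex.one_im]
  ring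

theorem EE_nonneg (x η : ℝ) : 0 ≤ EE x η := add_nonneg (normSq_nonneg _) (normSq_nonneg _)

theorem EE_le (x : ℝ) {η : ℝ} (hη : 0 < η) :
    2 * ((starRingEnd ℂ) (f2 (zz x η)) *
      (I * (1 / (4 * (zz x η) ^ 2)) * f1 (zz x η))).re ≤ EE x η / (4 * η ^ 2) := by
  have h1 : ((starRingEnd ℂ) (f2 (zz x η)) *
      (I * (1 / (4 * (zz x η) ^ 2)) * f1 (zz x η))).re ≤
      ‖f2 (zz x η)‖ * ((1 / (4 * η ^ 2)) * ‖f1 (zz x η)‖) := by
    refine (Complex.re_le_norm _).trans ?_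
    rw [norm_mul, norm_mul, norm_mul, Complex.norm_I, one_mul, RCLike.norm_conj, norm_div, norm_mul,
      norm_pow]
    refine mul_le_mul_of_nonneg_left ?_ (norm_nonneg _)
    refine mul_le_mul_of_nonneg_right ?_ (norm_nonneg _)
    have := zz_norm (x := x) hη.le
    rw [norm_one]
    have h4 : ‖(4:ℂ)‖ = 4 := by simp
    rw [h4]
    apply one_div_le_one_div_of_le (by positivity)
    have : η ^ 2 ≤ ‖zz x η‖ ^ 2 := by
      apply pow_le_pow_left₀ hη.le this
    linarith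
  have h2 : EE x η = ‖f1 (zz x η)‖ ^ 2 + ‖f2 (zz x η)‖ ^ 2 := by
    unfold EE
    rw [normSq_eq_norm_sq, normSq_eq_norm_sq]
  rw [h2]
  have h3 : 2 * (‖f2 (zz x η)‖ * ((1 / (4 * η ^ 2)) * ‖f1 (zz x η)‖)) ≤
      (‖f1 (zz x η)‖ ^ 2 + ‖f2 (zz x η)‖ ^ 2) / (4 * η ^ 2) := by
    rw [le_div_iff₀ (by positivity)]
    have : 2 * (‖f2 (zz x η)‖ * ((1 / (4 * η ^ 2)) * ‖f1 (zz x η)‖)) * (4 * η ^ 2) =
        2 * ‖f2 (zz x η)‖ * ‖f1 (zz x η)‖ := by
      field_simp
    rw [this]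
    nlinarith [sq_nonneg (‖f1 (zz x η)‖ - ‖f2 (zz x η)‖)]
  linarith

theorem anti (h : G_SERA) (x : ℝ) :
    AntitoneOn (fun η => EE x η * Real.exp (1 / (4 * η))) (Ici 1) := by
  have hd : ∀ η : ℝ, 0 < η → HasDerivAt (fun η => EE x η * Real.exp (1 / (4 * η)))
      ((2 * ((starRingEnd ℂ) (f2 (zz x η)) * (I * (1 / (4 * (zz x η) ^ 2)) * f1 (zz x η))).re) *
        Real.exp (1 / (4 * η)) + EE x η * (Real.exp (1 / (4 * η)) *
        ((0 * (4 * η) - 1 * (4 * 1)) / (4 * η) ^ 2))) η := by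
    intro η hη
    have h3 : HasDerivAt (fun w : ℝ => 4 * w) (4 * 1) η := (hasDerivAt_id η).const_mul 4
    have h1 : HasDerivAt (fun η : ℝ => 1 / (4 * η))
        ((0 * (4 * η) - 1 * (4 * 1)) / (4 * η) ^ 2) η :=
      (hasDerivAt_const η (1:ℝ)).div h3 (by positivity)
    exact (EE_der h hη).mul h1.exp
  apply antitoneOn_of_deriv_nonpos (convex_Ici 1)
  · intro η hη
    exact (hd η (lt_of_lt_of_le one_pos hη)).continuousAt.continuousWithinAt
  · intro η hη
    rw [interior_Ici] at hη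
    exact (hd η (lt_trans one_pos hη)).differentiableAt.differentiableWithinAt
  · intro η hη
    rw [interior_Ici] at hη
    have hη0 : 0 < η := lt_trans one_pos hη
    rw [(hd η hη0).deriv]
    have h1 := EE_le x hη0
    have h2 : EE x η * (Real.exp (1 / (4 * η)) * ((0 * (4 * η) - 1 * (4 * 1)) / (4 * η) ^ 2)) =
        -(EE x η / (4 * η ^ 2)) * Real.exp (1 / (4 * η)) := by
      field_simp
      ring
    rw [h2, ← add_mul]
    exact mul_nonpos_of_nonpos_of_nonneg (by linarith) (Real.exp_pos _).le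

theorem EE_one (hI : G_IB) {x : ℝ} (hx : 0 ≤ x) : EE x 1 ≤ 13 * Real.exp x ^ 2 := by
  obtain ⟨-, hI1, hI2, hI3⟩ := hI
  have hz : zz x 1 ≠ 0 := slitPlane_ne_zero (zz_slit one_pos)
  have hb := hI3 x hx
  have hb0 : 0 ≤ Ib x := by
    have := (norm_nonneg _).trans (hI1 (x : ℂ))
    simpa using this
  have h1 := hI1 (zz x 1)
  have h2 := hI2 (zz x 1)
  rw [zz_re] at h1 h2
  have hn1 : (1:ℝ) ≤ ‖zz x 1‖ := zz_norm zero_le_one
  have hn2 : ‖zz x 1‖ ≤ 1 + x := (zz_norm_le hx zero_le_one).trans (by linarith)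
  have hs := s_norm hz
  have hf1 : ‖f1 (zz x 1)‖ ≤ Real.sqrt (1 + x) * Ib x := by
    unfold f1
    rw [norm_mul, hs]
    exact mul_le_mul (Real.sqrt_le_sqrt hn2) h1 (norm_nonneg _) (Real.sqrt_nonneg _)
  have hf2 : ‖f2 (zz x 1)‖ ≤ Real.sqrt (1 + x) * (3 / 2 * Ib x) := by
    unfold f2
    rw [norm_mul, hs]
    refine mul_le_mul (Real.sqrt_le_sqrt hn2) ?_ (norm_nonneg _) (Real.sqrt_nonneg _)
    refine (norm_add_le _ _).trans ?_
    have : ‖Ic (zz x 1) / (2 * zz x 1)‖ ≤ Ib x / 2 := by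
      rw [norm_div, norm_mul]
      have h4 : ‖(2:ℂ)‖ = 2 := by simp
      rw [h4]
      apply div_le_div₀ hb0 h1 (by norm_num) (by linarith)
    linarith
  have e : EE x 1 = ‖f1 (zz x 1)‖ ^ 2 + ‖f2 (zz x 1)‖ ^ 2 := by
    unfold EE
    rw [normSq_eq_norm_sq, normSq_eq_norm_sq]
  have hsq : 0 ≤ Real.sqrt (1 + x) := Real.sqrt_nonneg _
  have g1 : ‖f1 (zz x 1)‖ ≤ 2 * Real.exp x := by linarith [mul_comm (Ib x) (Real.sqrt (1 + x))]
  have g2 : ‖f2 (zz x 1)‖ ≤ 3 * Real.exp x := by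
    have : Real.sqrt (1 + x) * (3 / 2 * Ib x) = 3 / 2 * (Ib x * Real.sqrt (1 + x)) := by ring
    rw [this] at hf2
    linarith
  have k1 : ‖f1 (zz x 1)‖ ^ 2 ≤ (2 * Real.exp x) ^ 2 := pow_le_pow_left₀ (norm_nonneg _) g1 2
  have k2 : ‖f2 (zz x 1)‖ ^ 2 ≤ (3 * Real.exp x) ^ 2 := pow_le_pow_left₀ (norm_nonneg _) g2 2
  rw [e]
  nlinarith

theorem thm (h : G_SERA) (hI : G_IB) : G_IBD := by
  refine ⟨5, ?_⟩
  intro z hz
  obtain ⟨hx, hy, hz0⟩ := hz
  have hzz : z = zz z.re (-z.im) := by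
    apply Complex.ext
    · rw [zz_re]
    · rw [zz_im]; ring
  obtain ⟨x, rfl⟩ : ∃ x, x = z.re := ⟨_, rfl⟩
  obtain ⟨η, hη⟩ : ∃ η, η = -z.im := ⟨_, rfl⟩
  have hη0 : 0 ≤ η := by rw [hη]; linarith
  rw [← hη] at hzz
  have hbI : 0 ≤ Ib z.re := (norm_nonneg _).trans (hI.2.1 z)
  rcases le_or_gt η 1 with h1 | h1
  · have hn : ‖z‖ ≤ 1 + z.re := by
      have := zz_norm_le hx hη0
      rw [← hzz] at this
      linarith
    calc ‖Ic z‖ * Real.sqrt ‖z‖ ≤ Ib z.re * Real.sqrt (1 + z.re) :=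
          mul_le_mul (hI.2.1 z) (Real.sqrt_le_sqrt hn) (Real.sqrt_nonneg _) hbI
      _ ≤ 2 * Real.exp z.re := hI.2.2.2 _ hx
      _ ≤ 5 * Real.exp z.re := by
          have := Real.exp_pos z.re
          linarith
  · have ha := anti h z.re (Set.mem_Ici.2 (le_refl (1:ℝ))) (Set.mem_Ici.2 h1.le) h1.le
    simp only at ha
    have hE := EE_one hI hx
    have hexp : Real.exp (1 / (4 * 1)) ≤ 4 / 3 := by
      have h3 : Real.exp (1 / (4 * 1)) ≤ 1 / (1 - 1 / 4) := by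
        have h5 := Real.add_one_le_exp (-(1/4 : ℝ))
        have h6 : Real.exp (1 / (4 * 1)) = 1 / Real.exp (-(1/4)) := by
          rw [Real.exp_neg]; norm_num
        rw [h6]
        apply one_div_le_one_div_of_le (by norm_num)
        linarith
      refine h3.trans ?_
      norm_num
    have h7 : 1 ≤ Real.exp (1 / (4 * η)) := by
      apply Real.one_le_exp
      positivity
    have h8 : EE z.re η ≤ EE z.re η * Real.exp (1 / (4 * η)) := by
      have := EE_nonneg z.re η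
      nlinarith
    have h9 : EE z.re η ≤ 25 * Real.exp z.re ^ 2 := by
      have h10 : EE z.re 1 * Real.exp (1 / (4 * 1)) ≤ (13 * Real.exp z.re ^ 2) * (4 / 3) := by
        apply mul_le_mul hE hexp (Real.exp_pos _).le (by positivity)
      have : 0 < Real.exp z.re ^ 2 := by positivity
      nlinarith
    have h11 : ‖f1 z‖ ^ 2 ≤ EE z.re η := by
      unfold EE
      rw [← hzz, ← normSq_eq_norm_sq]
      have := normSq_nonneg (f2 z)
      linarith
    have h12 : ‖f1 z‖ = ‖Ic z‖ * Real.sqrt ‖z‖ := by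
      unfold f1
      rw [norm_mul, s_norm hz0, mul_comm]
    rw [← h12]
    apply abs_le_of_sq_le_sq' _ (by positivity) |>.2
    have : (5 * Real.exp z.re) ^ 2 = 25 * Real.exp z.re ^ 2 := by ring
    rw [this]
    linarith

end Pool.Agent.Helper99.EC.I_IBD
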