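import Pool.Agent.Helper38.EC.Goals

set_option autoImplicit false

open MeasureTheory Filter Topology Set

namespace Pool.Agent.Helper99.EC.I_KR

open EC237

theorem thm : EC237.PI.G_KR := by
  intro t ht
  set g : ℝ → ℝ := fun τ => Real.exp (-τ) * (Real.sqrt τ)⁻¹ * (Real.sqrt (2 + τ / t))⁻¹ with hg
  have himg : (fun u : ℝ => t * (Real.cosh u - 1)) '' (Ioi 0) = Ioi 0 := by
    ext τ
    constructor
    · rintro ⟨u, hu, rfl⟩
      have : 1 < Real.cosh u := Real.one_lt_cosh.2 (ne_of_gt hu)
      exact mul_pos ht (by linarith)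
    · intro hτ
      have hτ' : 0 < τ := hτ
      have h1 : 1 ≤ 1 + τ / t := by
        have := div_pos hτ' ht
        linarith
      refine ⟨Real.arcosh (1 + τ / t), ?_, ?_⟩
      · have h0 : 0 ≤ Real.arcosh (1 + τ / t) := Real.arcosh_nonneg h1
        rcases h0.lt_or_eq with h | h
        · exact h
        · exfalso
          have := (Real.arcosh_eq_zero_iff h1).1 h.symm
          have := div_pos hτ' ht
          linarith
      · show t * (Real.cosh (Real.arcosh (1 + τ / t)) - 1) = τ
        rw [Real.cosh_arcosh h1]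
        field_simp
        ring
  have hder : ∀ u ∈ Ioi (0:ℝ), HasDerivWithinAt (fun u : ℝ => t * (Real.cosh u - 1))
      (t * Real.sinh u) (Ioi 0) u := by
    intro u _
    exact (((Real.hasDerivAt_cosh u).sub_const 1).const_mul t).hasDerivWithinAt
  have hinj : InjOn (fun u : ℝ => t * (Real.cosh u - 1)) (Ioi 0) := by
    intro u hu v hv h
    have h1 : Real.cosh u = Real.cosh v := by
      have := mul_left_cancel₀ (ne_of_gt ht) h
      linarith
    exact Real.cosh_strictMonoOn.injOn (Set.mem_Ici.2 (le_of_lt (Set.mem_Ioi.1 hu))) (Set.mem_Ici.2 (le_of_lt (Set.mem_Ioi.1 hv))) h1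
  have key := integral_image_eq_integral_abs_deriv_smul measurableSet_Ioi hder hinj g
  rw [himg] at key
  rw [key]
  have h2 : ∀ u ∈ Ioi (0:ℝ), |t * Real.sinh u| • g (t * (Real.cosh u - 1)) =
      (Real.sqrt t * Real.exp t) * Real.exp (-(t * Real.cosh u)) := by
    intro u hu
    have hu' : 0 < u := hu
    have hs : 0 < Real.sinh u := Real.sinh_pos_iff.2 hu'
    have hc : 0 < Real.cosh u - 1 := by
      have : 1 < Real.cosh u := Real.one_lt_cosh.2 (ne_of_gt hu)
      linarith
    have hc2 : 0 < Real.cosh u + 1 := by linarith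
    have e1 : Real.sqrt (t * (Real.cosh u - 1)) = Real.sqrt t * Real.sqrt (Real.cosh u - 1) :=
      Real.sqrt_mul ht.le _
    have e2 : 2 + t * (Real.cosh u - 1) / t = Real.cosh u + 1 := by
      field_simp
      ring
    have e3 : Real.sqrt (Real.cosh u - 1) * Real.sqrt (Real.cosh u + 1) = Real.sinh u := by
      rw [← Real.sqrt_mul hc.le]
      have : (Real.cosh u - 1) * (Real.cosh u + 1) = Real.sinh u ^ 2 := by
        have := Real.cosh_sq u
        nlinarith
      rw [this, Real.sqrt_sq hs.le]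
    have e4 : Real.exp (-(t * (Real.cosh u - 1))) = Real.exp t * Real.exp (-(t * Real.cosh u)) := by
      rw [← Real.exp_add]
      congr 1
      ring
    have hst : 0 < Real.sqrt t := Real.sqrt_pos.2 ht
    have hs1 : 0 < Real.sqrt (Real.cosh u - 1) := Real.sqrt_pos.2 hc
    have hs2 : 0 < Real.sqrt (Real.cosh u + 1) := Real.sqrt_pos.2 hc2
    have hsq : Real.sqrt t * Real.sqrt t = t := Real.mul_self_sqrt ht.le
    rw [hg]
    simp only [smul_eq_mul]
    rw [abs_of_pos (mul_pos ht hs), e1, e2, e4, ← e3]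
    field_simp
    nlinarith [hsq]
  rw [setIntegral_congr_fun measurableSet_Ioi h2, integral_const_mul]
  have hst : Real.sqrt t ≠ 0 := (Real.sqrt_pos.2 ht).ne'
  have e : Real.exp (-t) * Real.exp t = 1 := by rw [← Real.exp_add]; simp
  unfold Kb
  calc ∫ u in Ioi (0:ℝ), Real.exp (-(t * Real.cosh u))
      = (Real.exp (-t) * Real.exp t) * ((Real.sqrt t)⁻¹ * Real.sqrt t) *
        ∫ u in Ioi (0:ℝ), Real.exp (-(t * Real.cosh u)) := by
        rw [e, inv_mul_cancel₀ hst]; ring
    _ = _ := by ring

end Pool.Agent.Helper99.EC.I_KR
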